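import Mathlib

/-! # The order lemma, abstract form -/

set_option autoImplicit false

open MvPolynomial

namespace Pool.Agent.H81.UG

section van

variable {Λ σ : Type*} [Field Λ]

/-- translation -/
noncomputable def tr (c : σ → Λ) : MvPolynomial σ Λ →ₐ[Λ] MvPolynomial σ Λ := aeval fun i => X i + C (c i)

/-- `Q` vanishes to order at least `p` at `c`. -/
def Van (p : ℕ) (Q : MvPolynomial σ Λ) (c : σ → Λ) : Prop := ∀ a : σ →₀ ℕ, a.degree < p → coeff a (tr c Q) = 0

theorem van_iff {p : ℕ} {Q : MvPolynomial σ Λ} {c : σ → Λ} : Van p Q c ↔ tr c Q ∈ idealOfVars σ Λ ^ p :=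
  (mem_pow_idealOfVars_iff' p _).symm

theorem van_zero (Q : MvPolynomial σ Λ) (c : σ → Λ) : Van 0 Q c := fun _ h => absurd h (Nat.not_lt_zero _)

theorem coeff_tr (Q : MvPolynomial σ Λ) (c : σ → Λ) : coeff 0 (tr c Q) = eval c Q := by
  have h : (constantCoeff : MvPolynomial σ Λ →+* Λ).comp (tr c : MvPolynomial σ Λ →ₐ[Λ] MvPolynomial σ Λ).toRingHom =
      eval c := by
    apply MvPolynomial.ringHom_ext
    · intro r
      simp [tr]
    · intro i
      simp [tr]
  exact congrArg (fun f : MvPolynomial σ Λ →+* Λ => f Q) h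

theorem van_one {Q : MvPolynomial σ Λ} {c : σ → Λ} : Van 1 Q c ↔ eval c Q = 0 := by
  rw [← coeff_tr]
  constructor
  · intro h
    exact h 0 (by simp)
  · intro h a ha
    have h1 : a = 0 := by
      rw [← Finsupp.degree_eq_zero_iff]
      omega
    rw [h1, h]

theorem Van.add {p : ℕ} {P Q : MvPolynomial σ Λ} {c : σ → Λ} (h1 : Van p P c) (h2 : Van p Q c) : Van p (P + Q) c := by
  intro a ha
  rw [map_add, coeff_add, h1 a ha, h2 a ha, add_zero]

theorem Van.mul {p : ℕ} {Q : MvPolynomial σ Λ} {c : σ → Λ} (h : Van p Q c) (R : MvPolynomial σ Λ) : Van p (R * Q) c := by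
  rw [van_iff] at *
  rw [map_mul]
  exact Ideal.mul_mem_left _ _ h

theorem van_sum {p : ℕ} {ι : Type*} (s : Finset ι) (f : ι → MvPolynomial σ Λ) {c : σ → Λ} (h : ∀ i ∈ s, Van p (f i) c) :
    Van p (∑ i ∈ s, f i) c := by
  rw [van_iff, map_sum]
  exact Ideal.sum_mem _ fun i hi => van_iff.1 (h i hi)

theorem Van.mono {p q : ℕ} {Q : MvPolynomial σ Λ} {c : σ → Λ} (h : Van p Q c) (hq : q ≤ p) : Van q Q c :=
  fun a ha => h a (lt_of_lt_of_le ha hq)

/-- a factor which is not zero at the point -/
theorem Van.of_mul {p : ℕ} {Q R : MvPolynomial σ Λ} {c : σ → Λ} (hR : eval c R ≠ 0) (h : Van p (R * Q) c) : Van p Q c := by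
  classical
  by_contra h1
  -- a coefficient of least degree
  have h2 : ∃ e : ℕ, ∃ a : σ →₀ ℕ, a.degree = e ∧ e < p ∧ coeff a (tr c Q) ≠ 0 := by
    unfold Van at h1
    push Not at h1
    obtain ⟨a, ha, h3⟩ := h1
    exact ⟨a.degree, a, rfl, ha, h3⟩
  obtain ⟨a, h3, h4, h5⟩ := Nat.find_spec h2
  set e := Nat.find h2 with he
  have hmin : ∀ b : σ →₀ ℕ, b.degree < e → coeff b (tr c Q) = 0 := by
    intro b hb
    by_contra h6
    exact Nat.find_min h2 hb ⟨b, rfl, hb.trans h4, h6⟩
  have h6 := h a (by omega)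
  rw [map_mul, coeff_mul] at h6
  rw [Finset.sum_eq_single (0, a)] at h6
  · rw [coeff_tr] at h6
    rcases mul_eq_zero.1 h6 with h7 | h7
    · exact hR h7
    · exact h5 h7
  · rintro ⟨b, b'⟩ hb hne
    rw [Finset.HasAntidiagonal.mem_antidiagonal] at hb
    simp only at hb
    have h8 : b.degree + b'.degree = a.degree := by rw [← hb, map_add]
    by_cases h9 : b = 0
    · exfalso
      apply hne
      subst h9
      rw [zero_add] at hb
      rw [hb]
    · have h10 : b.degree ≠ 0 := fun h => h9 ((Finsupp.degree_eq_zero_iff b).1 h)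
      rw [hmin b' (by omega), mul_zero]
  · intro h7
    exfalso
    apply h7
    rw [Finset.HasAntidiagonal.mem_antidiagonal]
    simp

theorem Van.of_pow_mul {p N : ℕ} {Q R : MvPolynomial σ Λ} {c : σ → Λ} (hR : eval c R ≠ 0) (h : Van p (R ^ N * Q) c) :
    Van p Q c :=
  Van.of_mul (R := R ^ N) (by rw [map_pow]; exact pow_ne_zero _ hR) h

theorem tr_pderiv (i : σ) (Q : MvPolynomial σ Λ) (c : σ → Λ) : tr c (pderiv i Q) = pderiv i (tr c Q) := by
  classical
  induction Q using MvPolynomial.induction_on with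
  | C a => simp [tr]
  | add p q hp hq => simp only [map_add, hp, hq]
  | mul_X p j hp =>
    simp only [Derivation.leibniz, map_mul, smul_eq_mul, map_add, hp]
    have h1 : tr c (X j : MvPolynomial σ Λ) = X j + C (c j) := by simp [tr]
    have h2 : tr c (pderiv i (X j : MvPolynomial σ Λ)) = pderiv i (X j : MvPolynomial σ Λ) := by
      rw [pderiv_X]
      by_cases h : i = j
      · subst h
        simp
      · rw [Pi.single_eq_of_ne (Ne.symm h)]
        simp
    rw [h1, h2, map_add, pderiv_C, add_zero]

theorem coeff_pderiv' (i : σ) (Q : MvPolynomial σ Λ) (a : σ →₀ ℕ) :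
    coeff a (pderiv i Q) = ((a i : Λ) + 1) * coeff (a + Finsupp.single i 1) Q := by
  classical
  induction Q using MvPolynomial.induction_on' with
  | monomial b r =>
    rw [pderiv_monomial, coeff_monomial, coeff_monomial]
    by_cases h : b = a + Finsupp.single i 1
    · rw [if_pos h, if_pos]
      · rw [h]
        simp
        ring
      · rw [h, add_tsub_cancel_right]
    · rw [if_neg h, mul_zero]
      split_ifs with h1
      · by_cases h2 : b i = 0
        · simp [h2]
        · exfalso
          apply h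
          rw [← h1, tsub_add_cancel_of_le]
          rw [Finsupp.single_le_iff]
          omega
      · rfl
  | add p q hp hq => rw [map_add, coeff_add, coeff_add, hp, hq, mul_add]

/-- order and derivatives -/
theorem van_succ [CharZero Λ] {p : ℕ} {Q : MvPolynomial σ Λ} {c : σ → Λ} (h0 : eval c Q = 0)
    (h : ∀ i, Van p (pderiv i Q) c) : Van (p + 1) Q c := by
  classical
  intro a ha
  by_cases h1 : a = 0
  · rw [h1, coeff_tr, h0]
  · obtain ⟨i, hi⟩ : ∃ i, a i ≠ 0 := by
      by_contra h2
      push Not at h2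
      exact h1 (Finsupp.ext h2)
    have h3 : a - Finsupp.single i 1 + Finsupp.single i 1 = a := by
      rw [tsub_add_cancel_of_le]
      rw [Finsupp.single_le_iff]
      omega
    have h4 : (a - Finsupp.single i 1).degree < p := by
      have h5 : (a - Finsupp.single i 1).degree + (Finsupp.single i 1 : σ →₀ ℕ).degree = a.degree := by
        rw [← map_add, h3]
      rw [Finsupp.degree_single] at h5
      omega
    have h5 := h i (a - Finsupp.single i 1) h4
    rw [tr_pderiv, coeff_pderiv', h3] at h5
    rcases mul_eq_zero.1 h5 with h6 | h6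
    · exfalso
      exact Nat.cast_add_one_ne_zero _ h6
    · exact h6

end van

section order

variable {k J Λ σ : Type*} [Field k] [CommRing J] [Algebra k J] [Field Λ] [CharZero Λ] [Algebra k Λ]

/-- apply the derivations of a word -/
def app (W : List (Derivation k J J)) (P : J) : J := W.foldl (fun Q V => V Q) P

/-- The order lemma: if all derivatives of `P` along words of length at most `p` of fields in `S` vanish at the
point `c` of the fibre, then `P` vanishes to order `> p` at `c` on the fibre. -/
theorem order_abs (S : Derivation k J J → Prop) (z : J →ₐ[k] MvPolynomial σ Λ) (c : σ → Λ) (y : MvPolynomial σ Λ)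
    (hy : eval c y ≠ 0)
    (span : ∀ i : σ, ∃ (N m : ℕ) (a : Fin m → MvPolynomial σ Λ) (V : Fin m → Derivation k J J),
      (∀ j, S (V j)) ∧ ∀ P : J, y ^ N * pderiv i (z P) = ∑ j, a j * z (V j P)) :
    ∀ (p : ℕ) (P : J), (∀ W : List (Derivation k J J), (∀ V ∈ W, S V) → W.length ≤ p → eval c (z (app W P)) = 0) →
      Van (p + 1) (z P) c := by
  intro p
  induction p with
  | zero =>
    intro P h
    rw [zero_add, van_one]
    exact h [] (by simp) (by simp)
  | succ p ih =>
    intro P h
    refine van_succ (h [] (by simp) (by simp)) fun i => ?_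
    obtain ⟨N, m, a, V, hV, h1⟩ := span i
    refine Van.of_pow_mul (N := N) hy ?_
    rw [h1 P]
    refine van_sum _ _ fun j _ => Van.mul (ih (V j P) fun W hW hl => ?_) _
    refine h (V j :: W) ?_ ?_
    · intro V' hV'
      rcases List.mem_cons.1 hV' with rfl | h2
      · exact hV j
      · exact hW V' h2
    · simpa using hl

end order

end Pool.Agent.H81.UG
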