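import Pool.Agent.H47.UG.Lat

/-! # Elementary facts on the function field of a hypersurface -/

set_option autoImplicit false

open MvPolynomial

namespace Pool.Agent.H81.UG

open Pool.Agent.H47.UG

/-- chain rule -/
theorem der_aeval {K B M σ : Type} [Fintype σ] [Field K] [CommRing B] [Algebra K B] [AddCommGroup M] [Module K M]
    [Module B M] [IsScalarTower K B M] (E : Derivation K B M) (v : σ → B) (P : MvPolynomial σ K) :
    E (aeval v P) = ∑ l, aeval v (pderiv l P) • E (v l) := by
  classical
  induction P using MvPolynomial.induction_on with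
  | C a => simp
  | add p q hp hq => simp only [map_add, hp, hq, add_smul, Finset.sum_add_distrib]
  | mul_X p i hp =>
    simp only [map_mul, aeval_X, Derivation.leibniz, hp, smul_eq_mul, map_add, add_smul, Finset.sum_add_distrib,
      Finset.smul_sum]
    congr 1
    · rw [Finset.sum_eq_single i]
      · simp [pderiv_X_self]
      · intro b _ hb
        rw [pderiv_X_of_ne (Ne.symm hb)]
        simp
      · simp
    · refine Finset.sum_congr rfl fun l _ => ?_
      rw [smul_smul]

/-- homogeneous polynomials -/
theorem aeval_smul {K B σ : Type} [Field K] [CommRing B] [Algebra K B] {P : MvPolynomial σ K} {s : ℕ}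
    (hP : P.IsHomogeneous s) (c : B) (v : σ → B) : aeval (fun l => c * v l) P = c ^ s * aeval v P := by
  have h1 : ∀ (Q : MvPolynomial σ K), aeval v Q = ∑ a ∈ Q.support, algebraMap K B (coeff a Q) * ∏ i ∈ a.support, v i ^ a i := by
    intro Q
    rw [aeval_def, eval₂_eq]
  rw [h1 P, aeval_def, eval₂_eq, Finset.mul_sum]
  refine Finset.sum_congr rfl fun a ha => ?_
  have h2 := hP (mem_support_iff.1 ha)
  have h3 : ∑ i ∈ a.support, a i = s := by
    rw [← h2, Finsupp.weight_apply, Finsupp.sum]
    simp
  calc algebraMap K B (coeff a P) * ∏ i ∈ a.support, (c * v i) ^ a i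
      = algebraMap K B (coeff a P) * ((∏ i ∈ a.support, c ^ a i) * ∏ i ∈ a.support, v i ^ a i) := by
        rw [← Finset.prod_mul_distrib]
        simp only [mul_pow]
    _ = _ := by
        rw [Finset.prod_pow_eq_pow_sum, h3]
        ring

variable {K : Type} [Field K] {n d : ℕ} {F : HP K n}

theorem nice_pos (hF : Nice d F) : 0 < d := by
  rcases Nat.eq_zero_or_pos d with h | h
  · exfalso
    have h1 : F.totalDegree = 0 := by
      have := hF.hom.totalDegree hF.irr.ne_zero
      omega
    rw [totalDegree_eq_zero_iff_eq_C] at h1
    generalize coeff 0 F = c at h1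
    subst h1
    have h2 : c ≠ 0 := by
      rintro rfl
      exact hF.irr.ne_zero C_0
    exact hF.irr.not_isUnit ((isUnit_iff_ne_zero.2 h2).map C)
  · exact h

theorem F_zero (T : FF d F) (hF : Nice d F) : aeval T.x F = 0 := (T.ker d F hF.hom).2 dvd_rfl

theorem hom_pderiv {σ : Type} {s : ℕ} {P : MvPolynomial σ K} (hP : P.IsHomogeneous s) (j : σ) :
    (pderiv j P).IsHomogeneous (s - 1) := hP.pderiv

theorem not_dvd {s : ℕ} (hF : Nice d F) {P : HP K n} (hP : P.IsHomogeneous s) (h0 : P ≠ 0) (hs : s < d) : ¬ F ∣ P := by
  rintro ⟨Q, rfl⟩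
  have hQ : Q ≠ 0 := right_ne_zero_of_mul h0
  have h1 := totalDegree_mul_of_isDomain hF.irr.ne_zero hQ
  rw [hP.totalDegree h0, hF.hom.totalDegree hF.irr.ne_zero] at h1
  omega

variable [CharZero K]

theorem pderiv_ne (hF : Nice d F) (j : Fin (n + 2)) : pderiv j F ≠ 0 := by
  classical
  intro h
  have hd := nice_pos hF
  have h1 := congrArg (coeff (Finsupp.single j (d - 1))) h
  rw [coeff_zero] at h1
  have h2 : coeff (Finsupp.single j (d - 1)) (pderiv j F) = (d : K) * coeff (Finsupp.single j d) F := by
    have h3 : ∀ P : HP K n, coeff (Finsupp.single j (d - 1)) (pderiv j P) = (d : K) * coeff (Finsupp.single j d) P := by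
      intro P
      induction P using MvPolynomial.induction_on' with
      | monomial a c =>
        rw [pderiv_monomial, coeff_monomial, coeff_monomial]
        by_cases ha : a = Finsupp.single j d
        · subst ha
          rw [if_pos rfl, if_pos]
          · simp [mul_comm]
          · rw [← Finsupp.single_tsub]
        · rw [if_neg ha]
          split_ifs with h4
          · by_cases h5 : a j = 0
            · simp [h5]
            · exfalso
              apply ha
              have h6 : a = Finsupp.single j (d - 1) + Finsupp.single j 1 := by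
                rw [← h4, tsub_add_cancel_of_le]
                rw [Finsupp.single_le_iff]
                omega
              rw [h6, ← Finsupp.single_add]
              congr 1
              omega
          · simp
      | add p q hp hq => rw [map_add, coeff_add, coeff_add, hp, hq, mul_add]
    exact h3 F
  rw [h2] at h1
  rcases mul_eq_zero.1 h1 with h4 | h4
  · have : d = 0 := by exact_mod_cast h4
    omega
  · exact hF.diag j h4

theorem fd_ne (T : FF d F) (hF : Nice d F) (j : Fin (n + 2)) : T.fd j ≠ 0 := by
  intro h
  have h1 := (T.ker (d - 1) (pderiv j F) (hom_pderiv hF.hom j)).1 h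
  exact not_dvd hF (hom_pderiv hF.hom j) (pderiv_ne hF j) (by have := nice_pos hF; omega) h1

end Pool.Agent.H81.UG
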