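import Pool.Agent.H81.UG.Ord
import Pool.Agent.H1.UG.MultK

/-! # The order lemma, at a point over an extension field -/

set_option autoImplicit false

open MvPolynomial

namespace Pool.Agent.H81.UG

open Pool.Agent.H1.UG

theorem vanK_iff {L Λ σ : Type*} [Field L] [Field Λ] [Algebra L Λ] {p : ℕ} {Q : MvPolynomial σ L} {c : σ → Λ} :
    VanK p Q c ↔ Van p (MvPolynomial.map (algebraMap L Λ) Q) c := by
  have h : tr c (MvPolynomial.map (algebraMap L Λ) Q) =
      aeval (fun i => (X i + C (c i) : MvPolynomial σ Λ)) Q := by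
    unfold tr
    rw [aeval_map_algebraMap]
  unfold VanK Van
  rw [h]

/-- The order lemma over `L`, at a point over `Λ`. -/
theorem orderK {k J L Λ σ : Type*} [Field k] [CommRing J] [Algebra k J] [Field L] [Algebra k L] [Field Λ] [CharZero Λ]
    [Algebra k Λ] [Algebra L Λ] [IsScalarTower k L Λ]
    (S : Derivation k J J → Prop) (z : J →ₐ[k] MvPolynomial σ L) (c : σ → Λ) (y : MvPolynomial σ L)
    (hy : aeval c y ≠ 0)
    (span : ∀ i : σ, ∃ (N m : ℕ) (a : Fin m → MvPolynomial σ L) (V : Fin m → Derivation k J J),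
      (∀ j, S (V j)) ∧ ∀ P : J, y ^ N * pderiv i (z P) = ∑ j, a j * z (V j P))
    (p : ℕ) (P : J)
    (h : ∀ W : List (Derivation k J J), (∀ V ∈ W, S V) → W.length ≤ p → aeval c (z (app W P)) = 0) :
    VanK (p + 1) (z P) c := by
  have hev : ∀ Q : MvPolynomial σ L, eval c (MvPolynomial.map (algebraMap L Λ) Q) = aeval c Q := by
    intro Q
    rw [eval_map, aeval_def]
  let μ : MvPolynomial σ L →ₐ[k] MvPolynomial σ Λ := MvPolynomial.mapAlgHom (IsScalarTower.toAlgHom k L Λ)
  have hμ : ∀ Q, μ Q = MvPolynomial.map (algebraMap L Λ) Q := fun Q => rfl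
  rw [vanK_iff]
  have h1 := order_abs (Λ := Λ) S (μ.comp z) c (μ y) (by rw [hμ, hev]; exact hy) ?_ p P ?_
  · exact h1
  · intro i
    obtain ⟨N, m, a, V, hV, h2⟩ := span i
    refine ⟨N, m, fun j => μ (a j), V, hV, fun P => ?_⟩
    have h3 : pderiv i ((μ.comp z) P) = μ (pderiv i (z P)) := by
      rw [AlgHom.comp_apply, hμ, hμ, pderiv_map]
    rw [h3, ← map_pow, ← map_mul, h2 P, map_sum]
    refine Finset.sum_congr rfl fun j _ => ?_
    rw [map_mul]
    rfl
  · intro W hW hl
    rw [AlgHom.comp_apply, hμ, hev]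
    exact h W hW hl

end Pool.Agent.H81.UG
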